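import Mathlib
import Pool.Agent.H48.Mono

set_option autoImplicit false

namespace Pool.Agent.Results.MP_14f819_nt.Answer

open Polynomial

/-- The Lucas polynomials `L 0 = 2`, `L 1 = X`, `L (n + 2) = X * L (n + 1) + L n` in `ℤ[X]`. -/
noncomputable def lucasPoly : ℕ → ℤ[X]
  | 0 => 2
  | 1 => X
  | n + 2 => X * lucasPoly (n + 1) + lucasPoly n

/-- `f` is monogenic: for each complex root `θ` of `f`, the ring `ℤ[θ]` is the set of algebraic
integers of the field `ℚ(θ)`. -/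
def IsMonogenic (f : ℤ[X]) : Prop :=
  ∀ θ : ℂ, aeval θ f = 0 →
    ∀ x : ℂ, x ∈ Algebra.adjoin ℤ {θ} ↔ (x ∈ IntermediateField.adjoin ℚ {θ} ∧ IsIntegral ℤ x)

lemma eval_lucas (y : ℂ) (hy : y ≠ 0) (n : ℕ) :
    aeval (y - y⁻¹) (lucasPoly n) = y ^ n + (-y⁻¹) ^ n := by
  have h1 : y * y⁻¹ = 1 := mul_inv_cancel₀ hy
  have key : ∀ n : ℕ, aeval (y - y⁻¹) (lucasPoly n) = y ^ n + (-y⁻¹) ^ n ∧
      aeval (y - y⁻¹) (lucasPoly (n + 1)) = y ^ (n + 1) + (-y⁻¹) ^ (n + 1) := by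
    intro n
    induction n with
    | zero =>
      constructor
      · simp only [lucasPoly, pow_zero, map_ofNat]; norm_num
      · simp only [lucasPoly, zero_add, pow_one, aeval_X]; ring
    | succ n ih =>
      refine ⟨ih.2, ?_⟩
      rw [lucasPoly, map_add, map_mul, aeval_X, ih.1, ih.2]
      generalize y⁻¹ = z at h1 ⊢
      linear_combination (-y ^ n - (-z) ^ n) * h1
  exact (key n).1

/-- For odd `n`, all monic irreducible factors of `L n` are monogenic if and only if `n = 1`. -/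
theorem result (n : ℕ) (hn : Odd n) :
    (∀ f : ℤ[X], f.Monic → Irreducible (f.map (Int.castRingHom ℚ)) → f ∣ lucasPoly n →
      IsMonogenic f) ↔ n = 1 := by
  constructor
  · intro H
    by_contra h1
    have hn0 : 0 < n := hn.pos
    have hp := Complex.isPrimitiveRoot_exp n hn0.ne'
    set ζ := Complex.exp (2 * Real.pi * Complex.I / n) with hζ
    have hζ1 : ζ ≠ 1 := hp.ne_one (by omega)
    have hζn : ζ ^ n = 1 := hp.pow_eq_one
    have hζ0 : ζ ≠ 0 := hp.ne_zero hn0.ne'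
    have hint : IsIntegral ℤ (ζ - ζ⁻¹) :=
      (H48.Mono.int_of_pow hn0 hζn).sub (H48.Mono.int_inv_of_pow hn0 hζn)
    obtain ⟨m1, m2, m3⟩ := H48.Mono.minpoly_facts hint
    have hroot : aeval (ζ - ζ⁻¹) (lucasPoly n) = 0 := by
      rw [eval_lucas ζ hζ0, hn.neg_pow, inv_pow, hζn]; simp
    have hm := H _ m1 m2 (minpoly.isIntegrallyClosed_dvd hint hroot) _ m3 ζ
    obtain ⟨a1, a2, a3⟩ := H48.Mono.nonmono hn hζn hζ1
    exact a3 (hm.mpr ⟨a1, a2⟩)
  · rintro rfl f _ _ hf θ hθ x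
    have h0 : θ = 0 := by
      have := aeval_eq_zero_of_dvd_aeval_eq_zero hf hθ
      simpa [lucasPoly] using this
    subst h0
    exact ⟨H48.Mono.easy isIntegral_zero, fun h => H48.Mono.mono_zero h.1 h.2⟩

end Pool.Agent.Results.MP_14f819_nt.Answer
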